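import Mathlib
import Pool.Agent.W24.ML.Lists

/-!
# An algorithm for minimum-length multiples of nonmonic irreducible polynomials

Let `P` be an irreducible polynomial over the integers of degree at least one which is not monic
(leading coefficient different from `1` and `-1`). Let `F` be a multiple of `P` of minimum length with
nonzero constant term. If the exponents `i < j` of two consecutive terms of `F` are far apart, in terms
of the distance from `j` to the degree of `F`, then both parts of `F`, below and above the gap, are
multiples of `P`, which contradicts the minimality of the length: otherwise the resultant `r` of `P` and
the upper part is a nonzero integer of bounded size, and `r X ^ j` is congruent modulo `P` to a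
polynomial of much smaller degree; since a prime `p` divides the leading coefficient of `P`, this makes
`r` divisible by a large power of `p`. As the number of the terms of `F` is at most the length of `P`,
the degree of `F` is bounded by an explicit primitive recursive function of the degree and the length of
`P`. The coefficients of the cofactor are bounded as well, and a finite search finds a minimum-length
multiple.
-/

set_option autoImplicit false

namespace Pool.Agent.Results.MP_e7878a_nt.Algorithm

open Pool.Agent.W24.ML

/-- There is a primitive recursive, in particular computable, function which gives for every
coefficient list of an irreducible nonmonic polynomial `P` of degree at least one a coefficient list of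
a minimum-length multiple of `P`. -/
theorem result : ∃ f : List ℤ → List ℤ, Primrec f ∧ Computable f ∧
    ∀ l : List ℤ, Irreducible (poly l) → 1 ≤ (poly l).natDegree →
      (poly l).leadingCoeff ≠ 1 → (poly l).leadingCoeff ≠ -1 →
        IsMinMultiple (poly l) (poly (f l)) := by
  refine ⟨alg, prim_alg, prim_alg.to_comp, fun l hP hdeg h1 h2 => alg_correct l hP hdeg ?_⟩
  omega

end Pool.Agent.Results.MP_e7878a_nt.Algorithm
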